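import Pool.Agent.U50.MC.Stm

set_option autoImplicit false

/-! Project MC (helper50), package DIG: an odometer with base 64 digits on the 2-adic integers. -/

namespace Pool.Agent.U901.MC

open MeasureTheory Pool.Agent.U50.MC

/-! ### natural numbers -/

/-- the digit `r` -/
def D (r V : ℕ) : ℕ := V / 64 ^ r % 64

theorem D_mod {r n : ℕ} (h : r < n) (V : ℕ) : D r (V % 64 ^ n) = D r V := by
  unfold D
  obtain ⟨k, rfl⟩ := Nat.exists_eq_add_of_lt h
  have e : 64 ^ (r + k + 1) = 64 ^ r * 64 ^ (k + 1) := by ring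
  rw [e, Nat.mod_mul_right_div_self]
  exact Nat.mod_mod_of_dvd _ (dvd_pow_self 64 (Nat.succ_ne_zero k))

theorem D_add {i t : ℕ} (V r : ℕ) (h : D i V + t < 64) :
    D r (V + t * 64 ^ i) = D r V + if r = i then t else 0 := by
  have hp : 0 < 64 ^ i := by positivity
  rcases lt_trichotomy r i with hr | hr | hr
  · rw [if_neg hr.ne, add_zero]
    unfold D
    obtain ⟨k, rfl⟩ := Nat.exists_eq_add_of_lt hr
    have e : t * 64 ^ (r + k + 1) = 64 ^ r * (64 * (t * 64 ^ k)) := by ring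
    rw [e, Nat.add_mul_div_left _ _ (by positivity), Nat.add_mul_mod_self_left]
  · subst hr
    rw [if_pos rfl]
    unfold D at *
    rw [mul_comm t, Nat.add_mul_div_left _ _ hp]
    omega
  · rw [if_neg hr.ne', add_zero]
    unfold D at *
    obtain ⟨k, rfl⟩ := Nat.exists_eq_add_of_lt hr
    have e : 64 ^ (i + k + 1) = 64 ^ i * 64 * 64 ^ k := by ring
    have e2 : (V + t * 64 ^ i) / 64 ^ (i + k + 1) = V / 64 ^ (i + k + 1) := by
      rw [e, ← Nat.div_div_eq_div_mul, ← Nat.div_div_eq_div_mul, ← Nat.div_div_eq_div_mul,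
        ← Nat.div_div_eq_div_mul, mul_comm t, Nat.add_mul_div_left _ _ hp]
      congr 1
      omega
    rw [e2]

theorem D_add2 {i j t : ℕ} (V r : ℕ) (hij : i < j) (hi : D i V + t < 64) (hj : D j V + t < 64) :
    D r (V + t * (64 ^ i + 64 ^ j)) = D r V + if r = i ∨ r = j then t else 0 := by
  have e : V + t * (64 ^ i + 64 ^ j) = (V + t * 64 ^ i) + t * 64 ^ j := by ring
  have h1 : D j (V + t * 64 ^ i) = D j V := by
    rw [D_add V j hi, if_neg hij.ne', add_zero]
  rw [e, D_add _ r (by rw [h1]; exact hj), D_add V r hi]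
  by_cases h2 : r = i
  · subst h2
    rw [if_pos rfl, if_neg hij.ne, if_pos (Or.inl rfl), add_zero]
  · by_cases h3 : r = j
    · subst h3
      rw [if_neg h2, if_pos rfl, if_pos (Or.inr rfl), add_zero]
    · rw [if_neg h2, if_neg h3, if_neg (by tauto)]

theorem D_far {r r0 n V : ℕ} (hr : r0 < r) (h : V % 64 ^ (r0 + 1) + n < 64 ^ (r0 + 1)) :
    D r (V + n) = D r V := by
  unfold D
  obtain ⟨k, rfl⟩ := Nat.exists_eq_add_of_lt hr
  have e : 64 ^ (r0 + k + 1) = 64 ^ (r0 + 1) * 64 ^ k := by ring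
  obtain ⟨M, hM⟩ : ∃ M, M = 64 ^ (r0 + 1) := ⟨_, rfl⟩
  have hMp : 0 < M := by rw [hM]; positivity
  rw [e, ← Nat.div_div_eq_div_mul, ← Nat.div_div_eq_div_mul, ← hM]
  rw [← hM] at h
  congr 2
  have h1 := Nat.div_add_mod V M
  have e2 : V + n = (V % M + n) + M * (V / M) := by omega
  rw [e2, Nat.add_mul_div_left _ _ hMp, Nat.div_eq_of_lt h, zero_add]

theorem large {r0 : ℕ} : ∀ N : ℕ, ∀ V : ℕ, V < 64 ^ (r0 + N) → (∀ r, r0 ≤ r → r < r0 + N → D r V = 63) →
    64 ^ (r0 + N) - 64 ^ r0 ≤ V := by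
  intro N
  induction N with
  | zero => intro V _ _; simp
  | succ N ih =>
    intro V hV h
    have hp : 0 < 64 ^ (r0 + N) := by positivity
    have e : 64 ^ (r0 + (N + 1)) = 64 * 64 ^ (r0 + N) := by ring
    have h1 := ih (V % 64 ^ (r0 + N)) (Nat.mod_lt _ hp) (fun r hr hr2 => by
      rw [D_mod hr2]
      exact h r hr (by omega))
    have h2 := h (r0 + N) (by omega) (by omega)
    unfold D at h2
    have h3 : V / 64 ^ (r0 + N) < 64 := by
      rw [Nat.div_lt_iff_lt_mul hp]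
      omega
    rw [Nat.mod_eq_of_lt h3] at h2
    have h4 := Nat.div_add_mod V (64 ^ (r0 + N))
    rw [h2] at h4
    omega

/-! ### the 2-adic integers -/

/-- `x mod 64 ^ n` -/
noncomputable def v (n : ℕ) (x : ℤ_[2]) : ℕ := (PadicInt.toZModPow (6 * n) x).val

theorem e64 (n : ℕ) : 2 ^ (6 * n) = 64 ^ n := by
  rw [pow_mul]; norm_num

theorem v_lt (n : ℕ) (x : ℤ_[2]) : v n x < 64 ^ n := by
  rw [← e64]
  exact ZMod.val_lt _

theorem v_add (n : ℕ) (x : ℤ_[2]) (m : ℕ) : v n (x + m) = (v n x + m) % 64 ^ n := by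
  unfold v
  rw [← e64, map_add, map_natCast, ZMod.val_add, ZMod.val_natCast, Nat.add_mod_mod]

theorem v_mod {n k : ℕ} (h : n ≤ k) (x : ℤ_[2]) : v n x = v k x % 64 ^ n := by
  unfold v
  rw [← e64, ← PadicInt.cast_toZModPow (6 * n) (6 * k) (by omega) x, ZMod.cast_eq_val, ZMod.val_natCast]

/-- the digits -/
noncomputable def dig (r : ℕ) (x : ℤ_[2]) : ℕ := D r (v (r + 1) x)

theorem dig_eq {r n : ℕ} (h : r < n) (x : ℤ_[2]) : dig r x = D r (v n x) := by
  unfold dig
  rw [v_mod (show r + 1 ≤ n by omega) x, D_mod (Nat.lt_succ_self r)]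

theorem dig_add (r n : ℕ) (x : ℤ_[2]) (h : r < n) (m : ℕ) : dig r (x + m) = D r (v n x + m) := by
  rw [dig_eq h, v_add, D_mod h]

/-! ### the Haar measure -/

section haar

noncomputable local instance : MeasurableSpace ℤ_[2] := borel _
local instance : BorelSpace ℤ_[2] := ⟨rfl⟩

/-- the normalised Haar measure -/
noncomputable def mu : Measure ℤ_[2] := Measure.addHaarMeasure ⊤

theorem mu_prob : IsProbabilityMeasure mu := ⟨Measure.addHaarMeasure_self⟩

theorem mu_inv : mu.IsAddLeftInvariant := Measure.isAddLeftInvariant_addHaarMeasure _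

theorem meas_toZ (n : ℕ) (a : ZMod (2 ^ (6 * n))) :
    MeasurableSet {x : ℤ_[2] | PadicInt.toZModPow (6 * n) x = a} := by
  have e : {x : ℤ_[2] | PadicInt.toZModPow (6 * n) x = a} =
      Metric.closedBall ((a.val : ℕ) : ℤ_[2]) ((2 : ℝ) ^ (-((6 * n : ℕ) : ℤ))) := by
    ext x
    simp only [Set.mem_ofPred_eq, Metric.mem_closedBall, dist_eq_norm]
    have h1 := PadicInt.norm_le_pow_iff_mem_span_pow (p := 2) (x - ((a.val : ℕ) : ℤ_[2])) (6 * n)
    rw [Nat.cast_ofNat] at h1
    rw [h1, ← PadicInt.ker_toZModPow, RingHom.mem_ker, map_sub, map_natCast,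
      ZMod.natCast_zmod_val, sub_eq_zero]
  rw [e]
  exact Metric.isClosed_closedBall.measurableSet

theorem meas_v (n : ℕ) : Measurable (v n) := by
  refine measurable_to_countable' fun k => ?_
  have e : v n ⁻¹' {k} = ⋃ a : ZMod (2 ^ (6 * n)), ⋃ _ : a.val = k,
      {x : ℤ_[2] | PadicInt.toZModPow (6 * n) x = a} := by
    ext x
    simp only [Set.mem_preimage, Set.mem_singleton_iff, Set.mem_iUnion, Set.mem_ofPred_eq, v]
    constructor
    · intro h
      exact ⟨_, h, rfl⟩
    · rintro ⟨a, h, h2⟩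
      rw [h2, h]
  rw [e]
  exact MeasurableSet.iUnion fun a => MeasurableSet.iUnion fun _ => meas_toZ n a

theorem meas_dig (r : ℕ) : Measurable (dig r) :=
  (measurable_from_top (f := fun V : ℕ => D r V)).comp (meas_v (r + 1))

theorem mu_eq (n : ℕ) (a : ZMod (2 ^ (6 * n))) :
    mu {x : ℤ_[2] | PadicInt.toZModPow (6 * n) x = a} =
      mu {x : ℤ_[2] | PadicInt.toZModPow (6 * n) x = 0} := by
  have := mu_inv
  have h := measure_preimage_add mu (-((a.val : ℕ) : ℤ_[2]))
    {x : ℤ_[2] | PadicInt.toZModPow (6 * n) x = 0}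
  rw [← h]
  congr 1
  ext x
  simp only [Set.mem_ofPred_eq, Set.mem_preimage, map_add, map_neg, map_natCast, ZMod.natCast_zmod_val]
  constructor
  · intro h; rw [h]; ring
  · intro h
    linear_combination h

theorem mu_atom (n : ℕ) (a : ZMod (2 ^ (6 * n))) :
    mu {x : ℤ_[2] | PadicInt.toZModPow (6 * n) x = a} = ((64 : ENNReal) ^ n)⁻¹ := by
  have := mu_prob
  have h1 : mu (⋃ a : ZMod (2 ^ (6 * n)), {x : ℤ_[2] | PadicInt.toZModPow (6 * n) x = a}) = 1 := by
    have e : (⋃ a : ZMod (2 ^ (6 * n)), {x : ℤ_[2] | PadicInt.toZModPow (6 * n) x = a}) = Set.univ := by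
      rw [Set.eq_univ_iff_forall]
      intro x
      exact Set.mem_iUnion.mpr ⟨_, rfl⟩
    rw [e]
    exact measure_univ
  rw [measure_iUnion (fun a b hab => by
      rw [Function.onFun, Set.disjoint_left]
      rintro x hx hx2
      exact hab (hx.symm.trans hx2)) (meas_toZ n), tsum_fintype] at h1
  rw [Finset.sum_congr rfl (fun b _ => mu_eq n b), Finset.sum_const, Finset.card_univ, ZMod.card,
    nsmul_eq_mul] at h1
  rw [mu_eq]
  have e2 : ((2 ^ (6 * n) : ℕ) : ENNReal) = (64 : ENNReal) ^ n := by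
    rw [e64]
    push_cast
    rfl
  rw [e2] at h1
  rw [mul_comm] at h1
  exact ENNReal.eq_inv_of_mul_eq_one_left h1

theorem mu_top (n k : ℕ) : mu {x : ℤ_[2] | 64 ^ n - k ≤ v n x} ≤ k * ((64 : ENNReal) ^ n)⁻¹ := by
  classical
  set S : Finset (ZMod (2 ^ (6 * n))) := Finset.univ.filter fun a => 64 ^ n - k ≤ a.val with hS
  have hcard : S.card ≤ k := by
    have : S.card ≤ (Finset.Ico (64 ^ n - k) (64 ^ n)).card := by
      refine Finset.card_le_card_of_injOn (fun a => a.val) ?_ ?_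
      · intro a ha
        have h1 := (Finset.mem_filter.mp ha).2
        simp only [Finset.coe_Ico, Set.mem_Ico]
        refine ⟨h1, ?_⟩
        rw [← e64]
        exact ZMod.val_lt a
      · intro a _ b _ h
        exact ZMod.val_injective _ h
    rw [Nat.card_Ico] at this
    omega
  have e : {x : ℤ_[2] | 64 ^ n - k ≤ v n x} =
      ⋃ a ∈ S, {x : ℤ_[2] | PadicInt.toZModPow (6 * n) x = a} := by
    ext x
    simp only [Set.mem_ofPred_eq, Set.mem_iUnion, exists_prop, hS, Finset.mem_filter, Finset.mem_univ,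
      true_and, v]
    constructor
    · intro h
      exact ⟨_, h, rfl⟩
    · rintro ⟨a, h, h2⟩
      rw [h2]
      exact h
  rw [e]
  refine (measure_biUnion_finset_le _ _).trans ?_
  rw [Finset.sum_congr rfl (fun a _ => mu_atom n a), Finset.sum_const, nsmul_eq_mul]
  gcongr

theorem t_DIG : S_DIG := by
  have := mu_prob
  have := mu_inv
  refine ⟨ℤ_[2], borel _, mu, mu_prob, Equiv.addRight 1, dig, ?_, ?_, meas_dig, ?_, ?_, ?_⟩
  · have : ((Equiv.addRight (1 : ℤ_[2])) : ℤ_[2] → ℤ_[2]) = fun x => x + 1 := rfl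
    exact measurePreserving_add_right mu 1
  · have : ((Equiv.addRight (1 : ℤ_[2])).symm : ℤ_[2] → ℤ_[2]) = fun x => x + -1 := rfl
    rw [this]
    exact measurePreserving_add_right mu (-1)
  · intro r
    have h := mu_top (r + 1) (2 * 64 ^ r)
    have e : {x : ℤ_[2] | 62 ≤ dig r x} ⊆ {x : ℤ_[2] | 64 ^ (r + 1) - 2 * 64 ^ r ≤ v (r + 1) x} := by
      intro x hx
      have h1 : 62 ≤ D r (v (r + 1) x) := hx
      have h2 : 62 ≤ v (r + 1) x / 64 ^ r := h1.trans (Nat.mod_le _ _)
      rw [Nat.le_div_iff_mul_le (by positivity)] at h2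
      show 64 ^ (r + 1) - 2 * 64 ^ r ≤ v (r + 1) x
      have e3 : 64 ^ (r + 1) = 64 * 64 ^ r := by ring
      omega
    refine (measure_mono e).trans (h.trans ?_)
    have h64 : (64 : ENNReal) ^ r ≠ 0 := by positivity
    have h64' : (64 : ENNReal) ^ r ≠ ⊤ := by simp
    have e4 : ((2 * 64 ^ r : ℕ) : ENNReal) * ((64 : ENNReal) ^ (r + 1))⁻¹ = 2 * 64⁻¹ := by
      push_cast
      rw [pow_succ, ENNReal.mul_inv (Or.inl h64) (Or.inl h64'), mul_assoc, ← mul_assoc ((64 : ENNReal) ^ r),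
        ENNReal.mul_inv_cancel h64 h64', one_mul]
    rw [e4, ENNReal.ofReal_div_of_pos (by norm_num), ENNReal.ofReal_one, one_div]
    have e5 : ENNReal.ofReal 32 = 32 := by norm_num
    rw [e5]
    have e6 : (64 : ENNReal) = 2 * 32 := by norm_num
    rw [e6, ENNReal.mul_inv (Or.inl (by norm_num)) (Or.inl (by norm_num)), ← mul_assoc,
      ENNReal.mul_inv_cancel (by norm_num) (by norm_num), one_mul]
  · intro i j hij x hi hj t ht r
    have e : ((Equiv.addRight (1 : ℤ_[2])) ^ (t * nn i j)) x = x + ((t * nn i j : ℕ) : ℤ_[2]) := by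
      rw [Equiv.nsmul_addRight]
      simp
    rw [e]
    obtain ⟨n, hn⟩ : ∃ n, n = r + j + 1 := ⟨_, rfl⟩
    rw [dig_add r n x (by omega), dig_eq (show r < n by omega)]
    unfold nn
    rw [dig_eq (show i < n by omega)] at hi
    rw [dig_eq (show j < n by omega)] at hj
    exact D_add2 _ r hij (by omega) (by omega)
  · have key : ∀ r0 : ℕ, mu {x : ℤ_[2] | ∀ r, r0 ≤ r → dig r x = 63} = 0 := by
      intro r0
      have hle : ∀ N : ℕ, mu {x : ℤ_[2] | ∀ r, r0 ≤ r → dig r x = 63} ≤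
          ((64 : ENNReal) ^ N)⁻¹ := by
        intro N
        have h := mu_top (r0 + N) (64 ^ r0)
        refine (measure_mono ?_).trans (h.trans ?_)
        · intro x hx
          refine large N _ (v_lt _ _) fun r hr hr2 => ?_
          rw [← dig_eq hr2]
          exact hx r hr
        · have h64 : (64 : ENNReal) ^ r0 ≠ 0 := by positivity
          have h64' : (64 : ENNReal) ^ r0 ≠ ⊤ := by simp
          push_cast
          rw [pow_add, ENNReal.mul_inv (Or.inl h64) (Or.inl h64'), ← mul_assoc,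
            ENNReal.mul_inv_cancel h64 h64', one_mul]
      have hlim : Filter.Tendsto (fun N : ℕ => ((64 : ENNReal) ^ N)⁻¹) Filter.atTop (nhds 0) := by
        have := ENNReal.tendsto_pow_atTop_nhds_zero_of_lt_one (r := (64 : ENNReal)⁻¹)
          (by rw [ENNReal.inv_lt_one]; norm_num)
        refine this.congr fun N => ?_
        rw [ENNReal.inv_pow]
      exact le_antisymm (ge_of_tendsto' hlim hle) (by simp)
    have hall : ∀ᵐ x ∂mu, ∀ r0 : ℕ, ¬ ∀ r, r0 ≤ r → dig r x = 63 := by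
      rw [ae_all_iff]
      intro r0
      rw [ae_iff]
      simpa using key r0
    filter_upwards [hall] with x hx n
    have e : ((Equiv.addRight (1 : ℤ_[2])) ^ n) x = x + (n : ℤ_[2]) := by
      rw [Equiv.nsmul_addRight]
      simp
    rw [e]
    obtain ⟨r1, hr1⟩ : ∃ r1 : ℕ, n < 64 ^ r1 := ⟨n, Nat.lt_pow_self (by norm_num)⟩
    have h1 := hx r1
    push Not at h1
    obtain ⟨r0, hr0, h2⟩ := h1
    have h3 : n < 64 ^ r0 := hr1.trans_le (Nat.pow_le_pow_right (by norm_num) hr0)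
    refine (Set.finite_le_nat r0).subset fun r hr => ?_
    by_contra hlt
    have hlt' : r0 < r := not_le.mp hlt
    apply hr
    rw [dig_add r (r + 1) x (by omega), dig_eq (Nat.lt_succ_self r)]
    refine D_far hlt' ?_
    rw [← v_mod (show r0 + 1 ≤ r + 1 by omega)]
    have h4 : D r0 (v (r0 + 1) x) ≠ 63 := h2
    unfold D at h4
    have h5 := v_lt (r0 + 1) x
    have e6 : 64 ^ (r0 + 1) = 64 * 64 ^ r0 := by ring
    rw [e6] at h5 ⊢
    have h6 : v (r0 + 1) x / 64 ^ r0 < 64 := by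
      rw [Nat.div_lt_iff_lt_mul (by positivity)]
      exact h5
    rw [Nat.mod_eq_of_lt h6] at h4
    have h7 : v (r0 + 1) x / 64 ^ r0 < 63 := by omega
    rw [Nat.div_lt_iff_lt_mul (by positivity)] at h7
    omega

end haar

end Pool.Agent.U901.MC
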